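import Pool.Agent.Helper28.P13.ListsA
import Pool.Agent.Helper28.P13.ListsB
import Pool.Agent.Helper28.P13.ListsC
import Pool.Agent.Helper28.P13.ListsD
import Pool.Agent.Helper28.P13.ListsE
import Pool.Agent.Helper28.P13.ListsF
import Pool.Agent.Helper28.P13.ListsG
import Pool.Agent.Helper28.P13.ListsH
import Pool.Agent.Helper28.P13.ListsI

/-!
# Project P13: all rows `T2M`, `T3M`, `T5M`, `T7M`, `T11M`, `T17M`, `T19M`, `T23M`, `T29M`, `T31M`, `T37M`, `T43M`, `T47M`, `T53M`, `T59M`, `T61M`, `T67M`, `T71M`, `T73M`, `T79M`, `T89M`, `T101M`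
-/
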